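import Pool.Agent.H53.GM.Targets2

/-!
# Row EXT of the board `gm2_modules`: extensions of maximal types
-/

set_option autoImplicit false
set_option linter.unusedVariables false

namespace Pool.Agent.H68.GM

open Pool.Agent.H68.BP Pool.Agent.H58.SF Pool.Agent.H53.GC Pool.Agent.H53.GR Pool.Agent.H53.GM
open Classical

theorem pf_EXT (hTPB : Pool.Agent.H53.GM.T_TPB) (hMXE : Pool.Agent.H53.GM.T_MXE) :
    Pool.Agent.H53.GM.T_EXT := by
  intro τ N F J J' _ _ u t hF hu hne ht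
  obtain ⟨j₀⟩ := hne
  have hrs : ∀ (W : Type) (M : Str τ W) (a : J → W),
      tp N M (fun j => a (u j)) = rs u (tp N M a) :=
    fun W M a => (hTPB τ N W W J J' M M a).2.1 u
  obtain ⟨W, hW, M, a, hV, hta⟩ := ht.1
  obtain ⟨a', ha'⟩ : ∃ a' : J → W, ∀ j, a' (u j) = a j := by
    refine ⟨fun j => if h : ∃ j', u j' = j then a h.choose else a j₀, fun j => ?_⟩
    have h : ∃ j', u j' = u j := ⟨j, rfl⟩
    simp only [dif_pos h]
    rw [hu h.choose_spec]
  obtain ⟨P, hP, hsub⟩ := hMXE τ N F J (tp N M a') ⟨W, hW, M, a', hV, rfl⟩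
  refine ⟨P, hP, ?_⟩
  refine ht.2 _ (Rl.rs u hrs hP.1) ?_
  have h1 : rs u (tp N M a') = t := by
    rw [← hrs, ← hta]
    congr 1
    exact funext ha'
  rw [← h1]
  exact rs_mono u hsub

end Pool.Agent.H68.GM
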