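import Pool.Agent.H53.GM.Targets2

/-!
# Row MXR of the board `gm2_modules`: restrictions of maximal types
-/

set_option autoImplicit false
set_option linter.unusedVariables false

namespace Pool.Agent.H68.GM

open Pool.Agent.H68.BP Pool.Agent.H58.SF Pool.Agent.H53.GC Pool.Agent.H53.GR Pool.Agent.H53.GM
open Classical

theorem pf_MXR (hTPB : Pool.Agent.H53.GM.T_TPB) (hRLI : Pool.Agent.H53.GM.T_RLI)
    (hAMG : Pool.Agent.H53.GM.T_AMG) : Pool.Agent.H53.GM.T_MXR := by
  intro τ N F J J' _ _ u t hF hu ht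
  have hrs : ∀ (W : Type) (M : Str τ W) (a : J → W),
      tp N M (fun j => a (u j)) = rs u (tp N M a) :=
    fun W M a => (hTPB τ N W W J J' M M a).2.1 u
  refine ⟨Rl.rs u hrs ht.1, ?_⟩
  intro t' ht' hsub
  obtain ⟨W, hW, M, a, ha, hV, hta⟩ := hRLI τ N F J t ht.1
  obtain ⟨W', hW', M', b, hb, hV', htb⟩ := hRLI τ N F J' t' ht'
  have h1 : tp N M (fun j => a (u j)) ⊆ tp N M' b := by
    rw [hrs, hta, htb]
    exact hsub
  obtain ⟨P, e, he, hMP, hM'P, heq, hP, htp, -⟩ :=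
    hAMG τ N F W W' J' M M' (fun j => a (u j)) b hF (ha.comp hu) hb hV hV' h1
  have h2 : tp N M a ⊆ tp N P (fun j => e (a j)) := (hTPB τ N W (W ⊕ W') J J' M P a).1 e hMP
  have h3 : tp N P (fun j => e (a j)) = t := by
    refine ht.2 _ ⟨W ⊕ W', inferInstance, P, fun j => e (a j), hP, rfl⟩ ?_
    rw [← hta]
    exact h2
  have h4 : tp N P (fun j => e (a (u j))) = rs u t := by
    rw [← h3]
    exact hrs (W ⊕ W') P (fun j => e (a j))
  have h5 : (fun j => e (a (u j))) = fun j => (Sum.inr (b j) : W ⊕ W') := funext heq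
  rw [h5, htp J' b, htb] at h4
  exact h4

end Pool.Agent.H68.GM
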